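import Mathlib

set_option autoImplicit false

/-!
# McKay-type Bessel densities are never hyperbolically completely monotone

Write `I_μ(x) = (x/2)^μ H(x²)` with `H` entire.  For a density `f(x) = C x^p e^{-bx} I_μ(ax)^m`
the product `f(uv) f(u/v)` is an entire function `Ψ` of `w = v + 1/v`.  If it were completely
monotone on `(2,∞)`, its Taylor expansion at `w = 3` would give `Ψ(0) ≥ Ψ(3) > 0`.  But `w = 0`
corresponds to `v = i`, where the product is a multiple of `H(-(au)²)^{2m}`, and `H` has a zero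
on the negative axis (for all `μ > -1`; this follows from the Laplace transform
`∫ x^μ H(-x) e^{-sx} dx = s^{-μ-1} e^{-1/(4s)}`, which tends to `0` as `s → 0`).
-/

namespace Pool.Agent.Results.MP_ede858_pr.NeverHCM
open MeasureTheory Filter Topology Set

/-- The modified Bessel function of the first kind
`I_μ(x) = ∑_k (x/2)^(2k+μ) / (k! Γ(k+μ+1))` (for `x > 0`). -/
noncomputable def besselI (μ x : ℝ) : ℝ :=
  ∑' k : ℕ, (x / 2) ^ (2 * (k : ℝ) + μ) / ((k.factorial : ℝ) * Real.Gamma (k + μ + 1))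

/-- `G` is completely monotone on `(2,∞)`: it is `C^∞` there and `(-1)^n G^{(n)} ≥ 0`. -/
def CMOnIoiTwo (G : ℝ → ℝ) : Prop :=
  ContDiffOn ℝ ((⊤ : ℕ∞) : WithTop ℕ∞) G (Ioi 2) ∧
    ∀ n : ℕ, ∀ w : ℝ, 2 < w → 0 ≤ (-1) ^ n * iteratedDeriv n G w

/-- `f` is hyperbolically completely monotone: for every `u > 0` the product `f(uv) f(u/v)` is a
completely monotone function `G` of `w = v + 1/v`, `w > 2`. -/
def IsHCM (f : ℝ → ℝ) : Prop :=
  ∀ u : ℝ, 0 < u → ∃ G : ℝ → ℝ, CMOnIoiTwo G ∧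
    ∀ v : ℝ, 0 < v → v ≠ 1 → f (u * v) * f (u / v) = G (v + 1 / v)

lemma iteratedDeriv_re {Ψ : ℂ → ℂ} (hΨ : Differentiable ℂ Ψ) (n : ℕ) :
    iteratedDeriv n (fun x : ℝ => (Ψ x).re) = fun x : ℝ => (iteratedDeriv n Ψ x).re := by
  induction n with
  | zero => simp
  | succ n ih =>
    rw [iteratedDeriv_succ, ih]
    funext x
    have hd : DifferentiableAt ℂ (iteratedDeriv n Ψ) (x:ℂ) :=
      ((hΨ.contDiff (n := (n+1 : ℕ))).differentiable_iteratedDeriv n (by exact_mod_cast Nat.lt_succ_self n)) x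
    have h2 := hd.hasDerivAt.real_of_complex
    rw [h2.deriv, iteratedDeriv_succ]

/-- abstract criterion -/
lemma not_hcm {f : ℝ → ℝ} (hf : ∀ x, 0 < x → 0 < f x) {u : ℝ} (hu : 0 < u) {Ψ : ℂ → ℂ}
    (hΨ : Differentiable ℂ Ψ) (h : ∀ v : ℝ, 1 < v → f (u * v) * f (u / v) = (Ψ ((v + 1/v : ℝ) : ℂ)).re)
    (h0 : Ψ 0 = 0) : ¬ IsHCM f := by
  intro hcm
  obtain ⟨G, ⟨_, hG⟩, hfG⟩ := hcm u hu
  have hv : ∀ w : ℝ, 2 < w → ∃ v : ℝ, 1 < v ∧ v + 1/v = w := by
    intro w hw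
    have h1 : 0 < w^2 - 4 := by nlinarith
    refine ⟨(w + Real.sqrt (w^2-4))/2, ?_, ?_⟩
    · have := Real.sqrt_nonneg (w^2-4)
      linarith
    · have h2 := Real.sq_sqrt h1.le
      have h3 := Real.sqrt_nonneg (w^2-4)
      field_simp
      nlinarith
  have hGΨ : ∀ w : ℝ, 2 < w → G w = (Ψ w).re := by
    intro w hw
    obtain ⟨v, hv1, hv2⟩ := hv w hw
    rw [← hv2, ← hfG v (by linarith) (by linarith), h v hv1]
  have hpos : 0 < G 3 := by
    obtain ⟨v, hv1, hv2⟩ := hv 3 (by norm_num)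
    rw [← hv2, ← hfG v (by linarith) (by linarith)]
    have := hf (u*v) (by positivity)
    have := hf (u/v) (by positivity)
    positivity
  have hev : G =ᶠ[𝓝 3] fun x : ℝ => (Ψ x).re := by
    filter_upwards [Ioi_mem_nhds (show (2:ℝ) < 3 by norm_num)] with w hw
    exact hGΨ w hw
  have hder : ∀ n, iteratedDeriv n G 3 = (iteratedDeriv n Ψ ((3:ℝ):ℂ)).re := by
    intro n
    rw [hev.iteratedDeriv_eq n, iteratedDeriv_re hΨ n]
  have hs := Complex.hasSum_taylorSeries_of_entire hΨ ((3:ℝ):ℂ) 0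
  rw [h0] at hs
  have hs2 := Complex.hasSum_re hs
  have hterm : ∀ n : ℕ, (((n.factorial : ℂ))⁻¹ • (0 - ((3:ℝ):ℂ)) ^ n • iteratedDeriv n Ψ ((3:ℝ):ℂ)).re =
      ((n.factorial : ℝ))⁻¹ * 3^n * ((-1)^n * iteratedDeriv n G 3) := by
    intro n
    rw [hder n]
    have h4 : (((n.factorial : ℂ))⁻¹ • (0 - ((3:ℝ):ℂ)) ^ n • iteratedDeriv n Ψ ((3:ℝ):ℂ)) =
       ((((n.factorial : ℝ))⁻¹ * 3^n * (-1)^n : ℝ) : ℂ) * iteratedDeriv n Ψ ((3:ℝ):ℂ) := by
      simp only [smul_eq_mul, zero_sub]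
      push_cast
      rw [neg_eq_neg_one_mul (3:ℂ), mul_pow]
      ring
    rw [h4, Complex.re_ofReal_mul]
    ring
  simp only [hterm] at hs2
  have hnn : ∀ n : ℕ, 0 ≤ ((n.factorial : ℝ))⁻¹ * 3^n * ((-1)^n * iteratedDeriv n G 3) := by
    intro n
    have := hG n 3 (by norm_num)
    positivity
  have h5 := (hasSum_zero_iff_of_nonneg hnn).1 hs2
  have h6 := congrFun h5 0
  simp at h6
  linarith

/-- the coefficients of `H` -/
noncomputable def cf (μ : ℝ) (k : ℕ) : ℝ := 1 / (4^k * (k.factorial : ℝ) * Real.Gamma (k + μ + 1))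

section
variable {μ : ℝ} (hμ : -1 < μ)
include hμ

lemma Gamma_pos' (k : ℕ) : 0 < Real.Gamma (k + μ + 1) := by
  apply Real.Gamma_pos_of_pos
  have : (0:ℝ) ≤ k := by positivity
  linarith

lemma cf_pos (k : ℕ) : 0 < cf μ k := by
  have := Gamma_pos' hμ k
  unfold cf; positivity

lemma exists_bound : ∃ M : ℝ, 0 < M ∧ ∀ k : ℕ, cf μ k ≤ M / (k.factorial : ℝ) := by
  have h1 : ∀ k : ℕ, Real.Gamma (μ+2) ≤ Real.Gamma ((k+1 : ℕ) + μ + 1) := by
    intro k
    induction k with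
    | zero => 
      apply le_of_eq; congr 1; push_cast; ring
    | succ k ih =>
      have h2 : ((k+1+1 : ℕ) : ℝ) + μ + 1 = (((k+1:ℕ):ℝ) + μ + 1) + 1 := by push_cast; ring
      have h3 : 1 ≤ ((k+1:ℕ):ℝ) + μ + 1 := by
        push_cast
        have : (0:ℝ) ≤ k := by positivity
        linarith
      rw [h2, Real.Gamma_add_one (by linarith)]
      have h4 := Gamma_pos' hμ (k+1)
      nlinarith
  set m := min (Real.Gamma (μ+1)) (Real.Gamma (μ+2)) with hm
  have hm0 : 0 < m := lt_min (Real.Gamma_pos_of_pos (by linarith)) (Real.Gamma_pos_of_pos (by linarith))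
  have h5 : ∀ k : ℕ, m ≤ Real.Gamma (k + μ + 1) := by
    intro k
    rcases k with _ | k
    · have h7 : m ≤ Real.Gamma (μ+1) := min_le_left _ _
      simpa using h7
    · exact (min_le_right _ _).trans (h1 k)
  refine ⟨1/m, by positivity, fun k => ?_⟩
  unfold cf
  rw [div_div]
  apply one_div_le_one_div_of_le (by positivity)
  have h6 : (1:ℝ) ≤ 4^k := one_le_pow₀ (by norm_num)
  calc m * (k.factorial : ℝ) = 1 * (k.factorial : ℝ) * m := by ring
    _ ≤ 4^k * (k.factorial : ℝ) * Real.Gamma (k + μ + 1) := by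
      gcongr
      exact h5 k

lemma summable_cf (R : ℝ) (hR : 0 ≤ R) : Summable (fun k => cf μ k * R^k) := by
  obtain ⟨M, hM, hb⟩ := exists_bound hμ
  refine Summable.of_nonneg_of_le (fun k => by have := cf_pos hμ k; positivity) (fun k => ?_)
    ((Real.summable_pow_div_factorial R).mul_left M)
  calc cf μ k * R^k ≤ M / (k.factorial : ℝ) * R^k := by gcongr; exact hb k
    _ = M * (R^k / (k.factorial : ℝ)) := by ring

end

/-- the entire function `∑ c_k z^k` -/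
noncomputable def HH (μ : ℝ) (z : ℂ) : ℂ := ∑' k : ℕ, (cf μ k : ℂ) * z^k

section
variable {μ : ℝ} (hμ : -1 < μ)
include hμ

lemma norm_term (z : ℂ) (k : ℕ) : ‖(cf μ k : ℂ) * z^k‖ = cf μ k * ‖z‖^k := by
  rw [norm_mul, norm_pow, Complex.norm_real, Real.norm_eq_abs, abs_of_pos (cf_pos hμ k)]

lemma summable_HH (z : ℂ) : Summable (fun k => (cf μ k : ℂ) * z^k) := by
  apply Summable.of_norm
  simp only [norm_term hμ]
  exact summable_cf hμ _ (norm_nonneg z)

lemma HH_diff : Differentiable ℂ (HH μ) := by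
  intro z
  have h1 : DifferentiableOn ℂ (HH μ) (Metric.ball 0 (‖z‖+1)) := by
    refine Complex.differentiableOn_tsum_of_summable_norm (u := fun k => cf μ k * (‖z‖+1)^k)
      (summable_cf hμ _ (by positivity)) (fun k => by fun_prop) Metric.isOpen_ball ?_
    intro k w hw
    rw [norm_term hμ]
    have h2 : ‖w‖ ≤ ‖z‖+1 := by
      have := mem_ball_zero_iff.1 hw
      exact this.le
    have := cf_pos hμ k
    gcongr
  exact h1.differentiableAt (Metric.isOpen_ball.mem_nhds (by simp))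

omit hμ in
/-- real version -/
lemma HH_real (x : ℝ) : HH μ (x:ℂ) = ((∑' k : ℕ, cf μ k * x^k : ℝ) : ℂ) := by
  unfold HH
  rw [Complex.ofReal_tsum]
  push_cast
  rfl

lemma HH_re_pos {x : ℝ} (hx : 0 ≤ x) : 0 < ∑' k : ℕ, cf μ k * x^k := by
  have := (summable_cf hμ x hx).tsum_pos (fun k => by have := cf_pos hμ k; positivity) 0
    (by have := cf_pos hμ 0; simpa using this)
  exact this

/-- Laplace transform -/
lemma laplace {s : ℝ} (hs : 0 < s) :
    ∫ x in Ioi (0:ℝ), (∑' k : ℕ, cf μ k * (-x)^k) * (x^μ * Real.exp (-(s*x))) =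
      (1/s)^(μ+1) * Real.exp (-(1/(4*s))) := by
  have hbase : ∀ k : ℕ, ∫ x in Ioi (0:ℝ), x^((k:ℝ)+μ+1-1) * Real.exp (-(s*x)) =
      (1/s)^((k:ℝ)+μ+1) * Real.Gamma (k+μ+1) := by
    intro k
    apply Real.integral_rpow_mul_exp_neg_mul_Ioi _ hs
    have : (0:ℝ) ≤ k := by positivity
    linarith
  have hint : ∀ k : ℕ, IntegrableOn (fun x : ℝ => x^((k:ℝ)+μ+1-1) * Real.exp (-(s*x))) (Ioi 0) := by
    intro k
    by_contra hcon
    have h1 := hbase k
    rw [integral_undef hcon] at h1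
    have := Gamma_pos' hμ k
    have h2 : 0 < (1/s)^((k:ℝ)+μ+1) * Real.Gamma (k+μ+1) := by positivity
    linarith
  set F : ℕ → ℝ → ℝ := fun k x => (cf μ k * (-x)^k) * (x^μ * Real.exp (-(s*x))) with hF
  have hFeq : ∀ k, ∀ x ∈ Ioi (0:ℝ), F k x = ((-1)^k * cf μ k) * (x^((k:ℝ)+μ+1-1) * Real.exp (-(s*x))) := by
    intro k x hx
    have hx' : 0 < x := hx
    have h1 : x^((k:ℝ)+μ+1-1) = x^k * x^μ := by
      rw [show (k:ℝ)+μ+1-1 = k + μ by ring, Real.rpow_add hx', Real.rpow_natCast]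
    rw [hF, h1]
    simp only
    rw [neg_pow]
    ring
  have hFint : ∀ k, IntegrableOn (F k) (Ioi 0) := by
    intro k
    have h1 : IntegrableOn (fun x : ℝ => ((-1)^k * cf μ k) * (x^((k:ℝ)+μ+1-1) * Real.exp (-(s*x)))) (Ioi 0) :=
      (hint k).const_mul ((-1)^k * cf μ k)
    exact h1.congr_fun (fun x hx => (hFeq k x hx).symm) measurableSet_Ioi
  have hFnorm : ∀ k, ∫ x in Ioi (0:ℝ), ‖F k x‖ = (1/s)^(μ+1) * ((1/(4*s))^k / (k.factorial : ℝ)) := by
    intro k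
    have h1 : ∫ x in Ioi (0:ℝ), ‖F k x‖ = ∫ x in Ioi (0:ℝ), cf μ k * (x^((k:ℝ)+μ+1-1) * Real.exp (-(s*x))) := by
      apply setIntegral_congr_fun measurableSet_Ioi
      intro x hx
      have hx' : 0 < x := hx
      simp only
      rw [hFeq k x hx, Real.norm_eq_abs, abs_mul, abs_mul, abs_pow, abs_neg, abs_one, one_pow, one_mul,
        abs_of_pos (cf_pos hμ k), abs_of_pos (by positivity)]
    rw [h1, integral_const_mul, hbase k]
    have h2 : (1/s)^((k:ℝ)+μ+1) = (1/s)^(μ+1) * (1/s)^k := by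
      rw [show (k:ℝ)+μ+1 = (μ+1) + k by ring, Real.rpow_add (by positivity), Real.rpow_natCast]
    rw [h2]
    unfold cf
    have := Gamma_pos' hμ k
    have h3 : (1/(4*s))^k = (1/s)^k / 4^k := by
      rw [← div_pow]; congr 1; field_simp
    rw [h3]
    field_simp
  have hFi : ∀ k, ∫ x in Ioi (0:ℝ), F k x = (1/s)^(μ+1) * ((-(1/(4*s)))^k / (k.factorial : ℝ)) := by
    intro k
    have h1 : ∫ x in Ioi (0:ℝ), F k x = ∫ x in Ioi (0:ℝ), ((-1)^k * cf μ k) * (x^((k:ℝ)+μ+1-1) * Real.exp (-(s*x))) := 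
      setIntegral_congr_fun measurableSet_Ioi (fun x hx => hFeq k x hx)
    have h2 : ∫ x in Ioi (0:ℝ), ‖F k x‖ = ∫ x in Ioi (0:ℝ), cf μ k * (x^((k:ℝ)+μ+1-1) * Real.exp (-(s*x))) := by
      apply setIntegral_congr_fun measurableSet_Ioi
      intro x hx
      have hx' : 0 < x := hx
      simp only
      rw [hFeq k x hx, Real.norm_eq_abs, abs_mul, abs_mul, abs_pow, abs_neg, abs_one, one_pow, one_mul,
        abs_of_pos (cf_pos hμ k), abs_of_pos (by positivity)]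
    rw [h1]
    rw [integral_const_mul, mul_assoc, ← integral_const_mul, ← h2, hFnorm k]
    rw [neg_pow (1/(4*s))]
    ring
  have hsum : Summable (fun k => ∫ x in Ioi (0:ℝ), ‖F k x‖) := by
    simp only [hFnorm]
    exact (Real.summable_pow_div_factorial _).mul_left _
  have hmain := hasSum_integral_of_summable_integral_norm hFint hsum
  have hexp : HasSum (fun k : ℕ => (-(1/(4*s)))^k / (k.factorial : ℝ)) (Real.exp (-(1/(4*s)))) := by
    have := NormedSpace.expSeries_div_hasSum_exp (𝔸 := ℝ) (-(1/(4*s)))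
    rwa [← Real.exp_eq_exp_ℝ] at this
  have h5 : HasSum (fun k => ∫ x in Ioi (0:ℝ), F k x) ((1/s)^(μ+1) * Real.exp (-(1/(4*s)))) := by
    simp only [hFi]
    exact hexp.mul_left _
  have h6 := hmain.unique h5
  rw [← h6]
  apply setIntegral_congr_fun measurableSet_Ioi
  intro x _
  simp only [hF]
  rw [tsum_mul_right]

lemma exists_neg : ∃ x : ℝ, 0 < x ∧ ∑' k : ℕ, cf μ k * (-x)^k < 0 := by
  by_contra! hcon
  have hint : ∀ s : ℝ, 0 < s → IntegrableOn (fun x : ℝ => (∑' k : ℕ, cf μ k * (-x)^k) * (x^μ * Real.exp (-(s*x)))) (Ioi 0) := by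
    intro s hs
    by_contra h
    have h1 := laplace hμ hs
    rw [integral_undef h] at h1
    have : 0 < (1/s)^(μ+1) * Real.exp (-(1/(4*s))) := by positivity
    linarith
  have hmono : ∀ s : ℝ, 0 < s → s ≤ 1 → (1/(1:ℝ))^(μ+1) * Real.exp (-(1/(4*1))) ≤ (1/s)^(μ+1) * Real.exp (-(1/(4*s))) := by
    intro s hs hs1
    rw [← laplace hμ hs, ← laplace hμ one_pos]
    apply setIntegral_mono_on (hint 1 one_pos) (hint s hs) measurableSet_Ioi
    intro x hx
    have hx' : 0 < x := hx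
    have h1 := hcon x hx'
    have h2 : Real.exp (-(1*x)) ≤ Real.exp (-(s*x)) := by
      apply Real.exp_le_exp.2; nlinarith
    gcongr
  have hlim := tendsto_rpow_mul_exp_neg_mul_atTop_nhds_zero (μ+1) (1/4) (by norm_num)
  have hpos : 0 < (1/(1:ℝ))^(μ+1) * Real.exp (-(1/(4*1))) := by positivity
  have hev := (hlim.eventually (gt_mem_nhds hpos)).and (eventually_ge_atTop (1:ℝ))
  obtain ⟨T, hT, hT1⟩ := hev.exists
  have h3 := hmono (1/T) (by positivity) (by rw [div_le_one (by positivity)]; exact hT1)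
  have h4 : (1/(1/T))^(μ+1) * Real.exp (-(1/(4*(1/T)))) = T^(μ+1) * Real.exp (-(1/4)*T) := by
    rw [one_div_one_div]
    congr 2
    field_simp
  rw [h4] at h3
  linarith

lemma exists_zero : ∃ x : ℝ, 0 < x ∧ HH μ (-(x:ℂ)) = 0 := by
  obtain ⟨x, hx, hneg⟩ := exists_neg hμ
  set g : ℝ → ℝ := fun y => (HH μ (((-y : ℝ)) : ℂ)).re with hg
  have hgc : Continuous g := by
    have := (HH_diff hμ).continuous
    fun_prop
  have h0 : 0 < g 0 := by
    rw [hg]
    simp only [HH_real, Complex.ofReal_re]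
    have := HH_re_pos hμ (le_refl 0)
    simpa using this
  have h1 : g x < 0 := by
    rw [hg]
    simp only [HH_real, Complex.ofReal_re]
    exact hneg
  obtain ⟨y, hy, hy2⟩ := intermediate_value_Icc' hx.le hgc.continuousOn (show (0:ℝ) ∈ Icc (g x) (g 0) from ⟨h1.le, h0.le⟩)
  have hy0 : y ≠ 0 := by
    rintro rfl
    linarith
  refine ⟨y, lt_of_le_of_ne hy.1 (Ne.symm hy0), ?_⟩
  have h2 := HH_real (μ := μ) (-y)
  rw [hg] at hy2
  simp only at hy2
  rw [h2, Complex.ofReal_re] at hy2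
  rw [← Complex.ofReal_neg, h2, hy2, Complex.ofReal_zero]

end

/-- `D_n(x)` -/
noncomputable def DD (n : ℕ) (x : ℂ) : ℂ := (Polynomial.dickson 1 (1:ℂ) n).eval x

lemma DD_add_inv (t : ℂ) (ht : t ≠ 0) (n : ℕ) : DD n (t + t⁻¹) = t^n + (t⁻¹)^n :=
  Polynomial.dickson_one_one_eval_add_inv t t⁻¹ (mul_inv_cancel₀ ht) n

lemma DD_bound (x : ℂ) (M : ℝ) (hx : ‖x‖ ≤ M) (hM : 0 ≤ M) : ∀ n, ‖DD n x‖ ≤ 2 * (M+1)^n ∧ ‖DD (n+1) x‖ ≤ 2 * (M+1)^(n+1)
  | 0 => by
    constructor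
    · simp [DD, Polynomial.dickson_zero]; norm_num
    · simp [DD, Polynomial.dickson_one]; linarith
  | (n+1) => by
    obtain ⟨h1, h2⟩ := DD_bound x M hx hM n
    refine ⟨h2, ?_⟩
    have h3 : DD (n+1+1) x = x * DD (n+1) x - DD n x := by
      unfold DD
      rw [Polynomial.dickson_add_two]
      simp
    rw [h3]
    calc ‖x * DD (n+1) x - DD n x‖ ≤ ‖x‖ * ‖DD (n+1) x‖ + ‖DD n x‖ := by
          refine (norm_sub_le _ _).trans ?_
          rw [norm_mul]
      _ ≤ M * (2 * (M+1)^(n+1)) + 2 * (M+1)^n := by gcongr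
      _ = 2 * (M+1)^n * (M * (M+1) + 1) := by ring
      _ ≤ 2 * (M+1)^n * ((M+1)*(M+1)) := by gcongr; nlinarith
      _ = _ := by ring

lemma DD_diff (n : ℕ) : Differentiable ℂ (DD n) := by
  unfold DD
  exact (Polynomial.dickson 1 (1:ℂ) n).differentiable

/-- distance of natural numbers -/
def nd (j k : ℕ) : ℕ := (j - k) + (k - j)

/-- the entire function with `QQ s (t + 1/t) = H(s t) H(s/t)` -/
noncomputable def QQ (μ s : ℝ) (x : ℂ) : ℂ :=
  (1/2) * ∑' p : ℕ × ℕ, ((cf μ p.1 * cf μ p.2 * s^(p.1+p.2) : ℝ) : ℂ) * DD (nd p.1 p.2) x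

section
variable {μ : ℝ} (hμ : -1 < μ)
include hμ

lemma QQ_diff {s : ℝ} (hs : 0 < s) : Differentiable ℂ (QQ μ s) := by
  unfold QQ
  apply Differentiable.const_mul
  intro z
  set M : ℝ := ‖z‖ + 1 with hM
  have hM0 : 0 ≤ M := by positivity
  have hsum0 : Summable (fun k => cf μ k * (s * (M+1))^k) := summable_cf hμ _ (by positivity)
  have hsum : Summable (fun p : ℕ × ℕ => 2 * ((cf μ p.1 * (s * (M+1))^p.1) * (cf μ p.2 * (s * (M+1))^p.2))) :=
    (hsum0.mul_of_nonneg hsum0 (fun k => by have := cf_pos hμ k; positivity)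
      (fun k => by have := cf_pos hμ k; positivity)).mul_left 2
  have h1 : DifferentiableOn ℂ (fun x => ∑' p : ℕ × ℕ, ((cf μ p.1 * cf μ p.2 * s^(p.1+p.2) : ℝ) : ℂ) * DD (nd p.1 p.2) x) 
      (Metric.ball 0 M) := by
    refine Complex.differentiableOn_tsum_of_summable_norm hsum 
      (fun p => ((DD_diff _).const_mul _).differentiableOn) Metric.isOpen_ball ?_
    intro p w hw
    have h2 : ‖w‖ ≤ M := (mem_ball_zero_iff.1 hw).le
    have h3 := (DD_bound w M h2 hM0 (nd p.1 p.2)).1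
    have hc1 := cf_pos hμ p.1
    have hc2 := cf_pos hμ p.2
    rw [norm_mul, Complex.norm_real, Real.norm_eq_abs, abs_of_pos (by positivity)]
    have h4 : (M+1)^(nd p.1 p.2) ≤ (M+1)^(p.1+p.2) := by
      apply pow_le_pow_right₀ (by linarith)
      unfold nd; omega
    calc cf μ p.1 * cf μ p.2 * s^(p.1+p.2) * ‖DD (nd p.1 p.2) w‖ 
        ≤ cf μ p.1 * cf μ p.2 * s^(p.1+p.2) * (2 * (M+1)^(p.1+p.2)) := by
          gcongr
          exact h3.trans (by gcongr)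
      _ = _ := by rw [mul_pow, mul_pow, pow_add, pow_add]; ring
  exact h1.differentiableAt (Metric.isOpen_ball.mem_nhds (by simp [hM]))

lemma QQ_eq (s : ℝ) {t : ℂ} (ht : t ≠ 0) :
    QQ μ s (t + t⁻¹) = HH μ (s * t) * HH μ (s * t⁻¹) := by
  have ha := (summable_HH hμ (s*t)).norm
  have hb := (summable_HH hμ (s*t⁻¹)).norm
  have h1 : HH μ (s * t) * HH μ (s * t⁻¹) = ∑' p : ℕ × ℕ, ((cf μ p.1 : ℂ) * (s*t)^p.1) * ((cf μ p.2 : ℂ) * (s*t⁻¹)^p.2) := by
    unfold HH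
    exact tsum_mul_tsum_of_summable_norm ha hb
  have h2 : HH μ (s * t) * HH μ (s * t⁻¹) = ∑' p : ℕ × ℕ, ((cf μ p.1 : ℂ) * (s*t⁻¹)^p.1) * ((cf μ p.2 : ℂ) * (s*t)^p.2) := by
    rw [mul_comm]
    unfold HH
    exact tsum_mul_tsum_of_summable_norm hb ha
  have hs1 := summable_mul_of_summable_norm ha hb
  have hs2 := summable_mul_of_summable_norm hb ha
  have h3 : HH μ (s * t) * HH μ (s * t⁻¹) + HH μ (s * t) * HH μ (s * t⁻¹) = 
      ∑' p : ℕ × ℕ, (((cf μ p.1 : ℂ) * (s*t)^p.1) * ((cf μ p.2 : ℂ) * (s*t⁻¹)^p.2) + 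
        ((cf μ p.1 : ℂ) * (s*t⁻¹)^p.1) * ((cf μ p.2 : ℂ) * (s*t)^p.2)) := by
    rw [hs1.tsum_add hs2, ← h1, ← h2]
  have h4 : ∀ p : ℕ × ℕ, (((cf μ p.1 : ℂ) * (s*t)^p.1) * ((cf μ p.2 : ℂ) * (s*t⁻¹)^p.2) + 
        ((cf μ p.1 : ℂ) * (s*t⁻¹)^p.1) * ((cf μ p.2 : ℂ) * (s*t)^p.2)) = 
        ((cf μ p.1 * cf μ p.2 * s^(p.1+p.2) : ℝ) : ℂ) * DD (nd p.1 p.2) (t + t⁻¹) := by
    rintro ⟨j, k⟩
    rw [DD_add_inv t ht]
    have h5 : t^j * (t⁻¹)^k + (t⁻¹)^j * t^k = t^(nd j k) + (t⁻¹)^(nd j k) := by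
      rcases le_total j k with h | h
      · obtain ⟨m, rfl⟩ := Nat.exists_eq_add_of_le h
        have : nd j (j+m) = m := by unfold nd; omega
        rw [this, pow_add, pow_add]
        have h6 : t^j * (t⁻¹)^j = 1 := by rw [← mul_pow, mul_inv_cancel₀ ht, one_pow]
        calc t^j * ((t⁻¹)^j * (t⁻¹)^m) + (t⁻¹)^j * (t^j * t^m) = (t^j * (t⁻¹)^j) * (t^m + (t⁻¹)^m) := by ring
          _ = _ := by rw [h6, one_mul]
      · obtain ⟨m, rfl⟩ := Nat.exists_eq_add_of_le h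
        have : nd (k+m) k = m := by unfold nd; omega
        rw [this, pow_add, pow_add]
        have h6 : t^k * (t⁻¹)^k = 1 := by rw [← mul_pow, mul_inv_cancel₀ ht, one_pow]
        calc t^k * t^m * (t⁻¹)^k + (t⁻¹)^k * (t⁻¹)^m * t^k = (t^k * (t⁻¹)^k) * (t^m + (t⁻¹)^m) := by ring
          _ = _ := by rw [h6, one_mul]
    rw [← h5]
    push_cast
    rw [mul_pow, mul_pow, mul_pow, mul_pow, pow_add]
    ring
  simp only [h4] at h3
  unfold QQ
  rw [← h3]
  ring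

end

lemma besselI_eq {μ x : ℝ} (hx : 0 < x) :
    besselI μ x = (x/2)^μ * ∑' k : ℕ, cf μ k * (x^2)^k := by
  unfold besselI
  rw [← tsum_mul_left]
  apply tsum_congr
  intro k
  have h1 : (x/2)^(2*(k:ℝ)+μ) = (x/2)^μ * ((x^2)^k / 4^k) := by
    rw [add_comm, Real.rpow_add (by positivity), mul_comm (2:ℝ) (k:ℝ), Real.rpow_mul (by positivity), Real.rpow_natCast,
      ← div_pow]
    congr 1
    rw [← Real.rpow_natCast, ← Real.rpow_mul (by positivity), mul_comm, Real.rpow_mul (by positivity), Real.rpow_natCast]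
    congr 1
    rw [Real.rpow_ofNat, div_pow]
    norm_num
  rw [h1]
  unfold cf
  ring

lemma general {μ a b p C : ℝ} {m : ℕ} (hμ : -1 < μ) (ha : 0 < a) (hC : 0 < C) (hm : m ≠ 0) :
    ¬ IsHCM (fun x => C * (x ^ p * Real.exp (-b * x) * besselI μ (a * x) ^ m)) := by
  obtain ⟨x₀, hx₀, hzero⟩ := exists_zero hμ
  set u : ℝ := Real.sqrt x₀ / a with hu
  have hu0 : 0 < u := by positivity
  set s : ℝ := a^2 * u^2 with hs
  have hs0 : 0 < s := by positivity
  have hsx : s = x₀ := by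
    rw [hs, hu, div_pow, Real.sq_sqrt hx₀.le]
    field_simp
  set A : ℝ := C^2 * (u^2)^p * (((a*u/2)^2)^μ)^m with hA
  set Ψ : ℂ → ℂ := fun w => (A : ℂ) * Complex.exp (-(b*u : ℝ) * w) * (QQ μ s (w^2 - 2))^m with hΨ
  apply not_hcm (f := fun x => C * (x ^ p * Real.exp (-b * x) * besselI μ (a * x) ^ m)) (u := u) (Ψ := Ψ)
  · intro x hx
    have h1 : 0 < besselI μ (a*x) := by
      rw [besselI_eq (by positivity)]
      have := HH_re_pos hμ (show 0 ≤ (a*x)^2 by positivity)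
      positivity
    positivity
  · exact hu0
  · have h1 := QQ_diff hμ hs0
    have h2 : Differentiable ℂ (fun w : ℂ => QQ μ s (w^2-2)) := h1.comp (by fun_prop)
    have h3 : Differentiable ℂ (fun w : ℂ => Complex.exp (-(b*u : ℝ) * w)) := by fun_prop
    exact ((h3.const_mul (A:ℂ)).mul (h2.pow m))
  · intro v hv
    have hv0 : 0 < v := by linarith
    have hv2 : (v^2 : ℂ) ≠ 0 := by
      have : (v:ℂ) ≠ 0 := by exact_mod_cast hv0.ne'
      positivity
    have h1 : (((v + 1/v : ℝ) : ℂ))^2 - 2 = (v:ℂ)^2 + ((v:ℂ)^2)⁻¹ := by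
      have : (v:ℂ) ≠ 0 := by exact_mod_cast hv0.ne'
      push_cast
      field_simp
      ring
    have h2 : QQ μ s ((((v + 1/v : ℝ) : ℂ))^2 - 2) = 
        (((∑' k : ℕ, cf μ k * (s*v^2)^k) * (∑' k : ℕ, cf μ k * (s*(v^2)⁻¹)^k) : ℝ) : ℂ) := by
      have e1 := HH_real (μ := μ) (s*v^2)
      have e2 := HH_real (μ := μ) (s*(v^2)⁻¹)
      have e3 : (s:ℂ) * (v:ℂ)^2 = ((s*v^2 : ℝ) : ℂ) := by
        rw [Complex.ofReal_mul s, Complex.ofReal_pow]
      have e4 : (s:ℂ) * ((v:ℂ)^2)⁻¹ = ((s*(v^2)⁻¹ : ℝ) : ℂ) := by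
        rw [Complex.ofReal_mul s, Complex.ofReal_inv, Complex.ofReal_pow]
      rw [h1, QQ_eq hμ s hv2, e3, e4, e1, e2, ← Complex.ofReal_mul]
    rw [hΨ]
    simp only
    rw [h2]
    have h3 : Complex.exp (-(b*u : ℝ) * ((v + 1/v : ℝ) : ℂ)) = ((Real.exp (-(b*u) * (v+1/v)) : ℝ) : ℂ) := by
      push_cast; rfl
    rw [h3, ← Complex.ofReal_pow, ← Complex.ofReal_mul, ← Complex.ofReal_mul, Complex.ofReal_re]
    rw [besselI_eq (show 0 < a*(u*v) by positivity), besselI_eq (show 0 < a*(u/v) by positivity)]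
    have h4 : (a*(u*v))^2 = s*v^2 := by rw [hs]; ring
    have h5 : (a*(u/v))^2 = s*(v^2)⁻¹ := by rw [hs]; field_simp
    rw [h4, h5]
    have h6 : (u*v)^p * (u/v)^p = (u^2)^p := by
      rw [← Real.mul_rpow (by positivity) (by positivity)]
      congr 1; field_simp
    have h7 : (a*(u*v)/2)^μ * (a*(u/v)/2)^μ = ((a*u/2)^2)^μ := by
      rw [← Real.mul_rpow (by positivity) (by positivity)]
      congr 1; field_simp
    have h8 : Real.exp (-b*(u*v)) * Real.exp (-b*(u/v)) = Real.exp (-(b*u) * (v+1/v)) := by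
      rw [← Real.exp_add]; congr 1; field_simp; ring
    rw [hA, ← h6, ← h7, ← h8]
    simp only [mul_pow]
    ring
  · rw [hΨ]
    simp only
    have h1 : (0:ℂ)^2 - 2 = (-1:ℂ) + (-1:ℂ)⁻¹ := by norm_num
    rw [h1, QQ_eq hμ s (by norm_num : (-1:ℂ) ≠ 0)]
    have h2 : (s:ℂ) * (-1) = -(x₀:ℂ) := by rw [hsx]; ring
    rw [h2, hzero, zero_mul, zero_pow hm, mul_zero]

/-- No density `φ(x) ∝ x^{ν-1} e^{-bx} I_μ(ax)` and no density `ξ(x) ∝ x^{2μ} e^{-bx} I_μ(ax)²`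
is hyperbolically completely monotone. -/
theorem result :
    (∀ μ ν a b C : ℝ, -1 < μ → 0 < μ + ν → 0 < a → a < b → 0 < C →
      ¬ IsHCM (fun x => C * (x ^ (ν - 1) * Real.exp (-b * x) * besselI μ (a * x)))) ∧
    (∀ μ a b C : ℝ, -(1 / 4) < μ → 0 < a → 2 * a < b → 0 < C →
      ¬ IsHCM (fun x => C * (x ^ (2 * μ) * Real.exp (-b * x) * besselI μ (a * x) ^ 2))) := by
  constructor
  · intro μ ν a b C hμ _ ha _ hC
    have := general (b := b) (p := ν - 1) (m := 1) hμ ha hC one_ne_zero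
    simpa using this
  · intro μ a b C hμ ha _ hC
    exact general (b := b) (p := 2 * μ) (m := 2) (by linarith) ha hC two_ne_zero

end Pool.Agent.Results.MP_ede858_pr.NeverHCM
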